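import Pool.Agent.H62.LV.Base
import Pool.Agent.Helper79.LV.P8
import Pool.Agent.Helper18.LV.P9

/-!
# P11: the front on `[0, ℓ]` from `(0, 0)` to `(1, 1)`
-/

namespace Pool.Agent.H62.LV

open MeasureTheory Set Filter Topology

private theorem P11_mvt {f f' : ℝ → ℝ} {a b : ℝ} (hab : a < b)
    (h : ∀ x ∈ Icc a b, HasDerivAt f (f' x) x) :
    ∃ c ∈ Ioo a b, f b - f a = f' c * (b - a) := by
  obtain ⟨c, hc, h2⟩ := exists_hasDerivAt_eq_slope f f' hab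
    (fun x hx => (h x hx).continuousAt.continuousWithinAt)
    (fun x hx => h x (Ioo_subset_Icc_self hx))
  refine ⟨c, hc, ?_⟩
  rw [h2]
  field_simp [(sub_pos.2 hab).ne']

/-- classical maximum principle -/
private theorem P11_mp {m : ℝ} {w w' w'' : ℝ → ℝ} (hm : 0 ≤ m)
    (h1 : ∀ x ∈ Icc 0 m, HasDerivAt w (w' x) x) (h2 : ∀ x ∈ Icc 0 m, HasDerivAt w' (w'' x) x)
    (h3 : ∀ x ∈ Icc 0 m, w x < 0 → w'' x < 0) (h0 : 0 ≤ w 0) (hm' : 0 ≤ w m) :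
    ∀ x ∈ Icc 0 m, 0 ≤ w x := by
  by_contra hcon
  push Not at hcon
  obtain ⟨y, hy, hyneg⟩ := hcon
  have hc : ContinuousOn w (Icc 0 m) := fun x hx => (h1 x hx).continuousAt.continuousWithinAt
  obtain ⟨x₀, hx₀, hmin⟩ := isCompact_Icc.exists_isMinOn ⟨0, left_mem_Icc.2 hm⟩ hc
  have hneg : w x₀ < 0 := (hmin hy).trans_lt hyneg
  have hx₀0 : 0 < x₀ := lt_of_le_of_ne hx₀.1 (by rintro rfl; linarith)
  have hx₀m : x₀ < m := lt_of_le_of_ne hx₀.2 (by rintro rfl; linarith)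
  have hloc : IsLocalMin w x₀ := hmin.isLocalMin (Icc_mem_nhds hx₀0 hx₀m)
  have hz : w' x₀ = 0 := hloc.hasDerivAt_eq_zero (h1 x₀ hx₀)
  have hsl := (hasDerivAt_iff_tendsto_slope.1 (h2 x₀ hx₀)).eventually (gt_mem_nhds (h3 x₀ hx₀ hneg))
  have hsl2 : ∀ᶠ y in 𝓝[>] x₀, slope w' x₀ y < 0 :=
    hsl.filter_mono (nhdsWithin_mono _ (fun y (hy : x₀ < y) => hy.ne'))
  have hlt : ∀ᶠ y in 𝓝[>] x₀, y < m := mem_nhdsWithin_of_mem_nhds (gt_mem_nhds hx₀m)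
  obtain ⟨z, hz1, hz2⟩ := (mem_nhdsGT_iff_exists_Ioo_subset.1 (hsl2.and hlt))
  simp only [mem_Ioi] at hz1
  have hmid : (x₀ + z) / 2 ∈ Ioo x₀ z := ⟨by linarith, by linarith⟩
  have hmidm : (x₀ + z) / 2 < m := (hz2 hmid).2
  obtain ⟨c, hc, he⟩ := P11_mvt (f := w) (f' := w') hmid.1
    (fun x hx => h1 x ⟨hx₀.1.trans hx.1, hx.2.trans hmidm.le⟩)
  have hcs : slope w' x₀ c < 0 := (hz2 ⟨hc.1, hc.2.trans hmid.2⟩).1
  have hc0 : w' c < 0 := by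
    rw [slope_def_field, hz, sub_zero] at hcs
    by_contra hge
    exact absurd hcs (not_lt.2 (div_nonneg (not_lt.1 hge) (by linarith [hc.1])))
  have hge : w x₀ ≤ w ((x₀ + z) / 2) := hmin (⟨by linarith, hmidm.le⟩ : (x₀ + z) / 2 ∈ Icc 0 m)
  have := mul_neg_of_neg_of_pos hc0 (sub_pos.2 hmid.1)
  linarith

/-- monotonicity of the sources -/
private theorem P11_G1 {α K p q p' q' : ℝ} (hα : 0 ≤ α) (hK : 1 + α ≤ K)
    (hp0 : 0 ≤ p) (hp : p ≤ p') (hp1 : p' ≤ 1) (hq0 : 0 ≤ q) (hq : q ≤ q') :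
    F₁ α p q + K * p ≤ F₁ α p' q' + K * p' := by
  have h1 := mul_nonneg (sub_nonneg.2 hp) (by nlinarith [mul_nonneg hα (hq0.trans hq)] :
    0 ≤ 1 - α - (p + p') + α * q' + K)
  have h2 := mul_nonneg (mul_nonneg hα hp0) (sub_nonneg.2 hq)
  simp only [F₁]
  linarith

private theorem P11_G2 {β K p q p' q' : ℝ} (hβ : 0 ≤ β) (hK : 1 + β ≤ K)
    (hp : p ≤ p') (hp1 : p' ≤ 1) (hq0 : 0 ≤ q) (hq : q ≤ q') (hq1 : q' ≤ 1) :
    F₂ β p q + K * q ≤ F₂ β p' q' + K * q' := by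
  have h1 := mul_nonneg (sub_nonneg.2 hq) (by nlinarith [mul_nonneg hβ (sub_nonneg.2 hp1)] :
    0 ≤ K - 1 - β * p' + q + q')
  have h2 := mul_nonneg (mul_nonneg hβ (sub_nonneg.2 hp)) (by linarith : 0 ≤ 1 - q)
  simp only [F₂]
  linarith

/-- the invariants of the iteration -/
private structure P11_Inv (ℓ : ℝ) (p q : ℝ → ℝ) : Prop where
  cp : Continuous p
  cq : Continuous q
  mem : ∀ x ∈ Icc 0 ℓ, p x ∈ Icc (0 : ℝ) 1 ∧ q x ∈ Icc (0 : ℝ) 1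
  mp : MonotoneOn p (Icc 0 ℓ)
  mq : MonotoneOn q (Icc 0 ℓ)
  swap : ∀ x ∈ Icc 0 ℓ, 1 - q (ℓ - x) ≤ p x

/-- one component of the iteration: range and monotonicity -/
private theorem P11_comp {k ℓ : ℝ} (hk : 0 < k) (hℓ : 0 < ℓ) {H : ℝ → ℝ} (hH : Continuous H)
    (h0 : ∀ x ∈ Icc 0 ℓ, 0 ≤ H x) (h1 : ∀ x ∈ Icc 0 ℓ, H x ≤ k ^ 2)
    (hmono : MonotoneOn H (Icc 0 ℓ)) :
    (∀ x ∈ Icc 0 ℓ, TK k ℓ 0 1 H x ∈ Icc (0 : ℝ) 1) ∧
      MonotoneOn (TK k ℓ 0 1 H) (Icc 0 ℓ) := by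
  obtain ⟨u', hu1, hu2⟩ := TK_deriv (A := 0) (B := 1) hk hℓ hH
  obtain ⟨hb0, hb1⟩ := TK_bdry (A := 0) (B := 1) hk hℓ H
  obtain ⟨u, hu⟩ : ∃ u : ℝ → ℝ, u = TK k ℓ 0 1 H := ⟨_, rfl⟩
  rw [← hu] at hu1 hu2 hb0 hb1 ⊢
  have hk2 : 0 < k ^ 2 := by positivity
  have hge : ∀ x ∈ Icc 0 ℓ, 0 ≤ u x := by
    refine P11_mp hℓ.le (fun x _ => hu1 x) (fun x _ => hu2 x) (fun x hx hneg => ?_)
      (by rw [hb0]) (by rw [hb1]; exact zero_le_one)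
    have := mul_neg_of_pos_of_neg hk2 hneg
    have := h0 x hx
    linarith
  have hle : ∀ x ∈ Icc 0 ℓ, 0 ≤ 1 - u x := by
    refine P11_mp (w := fun x => 1 - u x) hℓ.le (fun x _ => (hu1 x).const_sub 1)
      (fun x _ => (hu2 x).neg) (fun x hx hneg => ?_) (by simp only [hb0]; norm_num)
      (by simp only [hb1]; norm_num)
    have := mul_neg_of_pos_of_neg hk2 hneg
    have := h1 x hx
    linarith
  refine ⟨fun x hx => ⟨hge x hx, by linarith [hle x hx]⟩, ?_⟩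
  intro x hx y hy hxy
  rcases eq_or_lt_of_le hxy with h | h
  · rw [h]
  obtain ⟨d, hd⟩ : ∃ d : ℝ, d = y - x := ⟨_, rfl⟩
  have hd0 : 0 < d := by rw [hd]; linarith
  have hdℓ : 0 ≤ ℓ - d := by rw [hd]; linarith [hx.1, hy.2]
  have hshift : ∀ z, HasDerivAt (fun z => u (z + d)) (u' (z + d)) z := fun z =>
    (hu1 (z + d)).comp_add_const z d
  have hshift2 : ∀ z, HasDerivAt (fun z => u' (z + d)) (k ^ 2 * u (z + d) - H (z + d)) z :=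
    fun z => (hu2 (z + d)).comp_add_const z d
  have hmain : ∀ z ∈ Icc 0 (ℓ - d), 0 ≤ u (z + d) - u z := by
    refine P11_mp (w := fun z => u (z + d) - u z) hdℓ (fun z _ => (hshift z).sub (hu1 z))
      (fun z _ => (hshift2 z).sub (hu2 z)) (fun z hz hneg => ?_) ?_ ?_
    · have hz1 : z ∈ Icc 0 ℓ := ⟨hz.1, by linarith [hz.2]⟩
      have hz2 : z + d ∈ Icc 0 ℓ := ⟨by linarith [hz.1], by linarith [hz.2]⟩
      have := hmono hz1 hz2 (by linarith)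
      have := mul_neg_of_pos_of_neg hk2 hneg
      linarith
    · simp only [zero_add, hb0, sub_zero]
      exact hge d ⟨hd0.le, by linarith⟩
    · simp only [sub_add_cancel, hb1]
      exact hle _ ⟨hdℓ, by linarith⟩
  have := hmain x ⟨hx.1, by rw [hd]; linarith [hy.2]⟩
  rw [hd, add_sub_cancel] at this
  linarith

private theorem P11_clamp {ℓ x : ℝ} (hx : x ∈ Icc 0 ℓ) : max 0 (min x ℓ) = x := by
  rw [min_eq_left hx.2, max_eq_right hx.1]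

private theorem P11_step {α β k ℓ : ℝ} (hα : 1 ≤ α) (hαβ : α < β) (hk : 0 < k)
    (hkβ : 1 + β ≤ k ^ 2) (hℓ : 0 < ℓ) {p q : ℝ → ℝ} (h : P11_Inv ℓ p q) :
    P11_Inv ℓ
      (TK k ℓ 0 1 (fun x => F₁ α (p (max 0 (min x ℓ))) (q (max 0 (min x ℓ))) +
        k ^ 2 * p (max 0 (min x ℓ))))
      (TK k ℓ 0 1 (fun x => F₂ β (p (max 0 (min x ℓ))) (q (max 0 (min x ℓ))) +
        k ^ 2 * q (max 0 (min x ℓ)))) := by
  obtain ⟨cp, cq, mem, mp, mq, swap⟩ := h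
  have hα0 : 0 ≤ α := by linarith
  have hβ0 : 0 ≤ β := by linarith
  have hkα : 1 + α ≤ k ^ 2 := by linarith
  have hcl : Continuous fun x : ℝ => max 0 (min x ℓ) := by fun_prop
  obtain ⟨H₁, hH₁⟩ : ∃ H : ℝ → ℝ, H = fun x => F₁ α (p (max 0 (min x ℓ))) (q (max 0 (min x ℓ))) +
        k ^ 2 * p (max 0 (min x ℓ)) := ⟨_, rfl⟩
  obtain ⟨H₂, hH₂⟩ : ∃ H : ℝ → ℝ, H = fun x => F₂ β (p (max 0 (min x ℓ))) (q (max 0 (min x ℓ))) +
        k ^ 2 * q (max 0 (min x ℓ)) := ⟨_, rfl⟩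
  rw [← hH₁, ← hH₂]
  have e₁ : ∀ x ∈ Icc 0 ℓ, H₁ x = F₁ α (p x) (q x) + k ^ 2 * p x := fun x hx => by
    rw [hH₁]; simp only [P11_clamp hx]
  have e₂ : ∀ x ∈ Icc 0 ℓ, H₂ x = F₂ β (p x) (q x) + k ^ 2 * q x := fun x hx => by
    rw [hH₂]; simp only [P11_clamp hx]
  have c₁ : Continuous H₁ := by
    rw [hH₁]
    simp only [F₁]
    have := cp.comp hcl
    have := cq.comp hcl
    fun_prop
  have c₂ : Continuous H₂ := by
    rw [hH₂]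
    simp only [F₂]
    have := cp.comp hcl
    have := cq.comp hcl
    fun_prop
  have a₁ : ∀ x ∈ Icc 0 ℓ, 0 ≤ H₁ x := fun x hx => by
    rw [e₁ x hx]
    have := P11_G1 hα0 hkα le_rfl (mem x hx).1.1 (mem x hx).1.2 le_rfl (mem x hx).2.1
    simpa [F₁] using this
  have a₂ : ∀ x ∈ Icc 0 ℓ, 0 ≤ H₂ x := fun x hx => by
    rw [e₂ x hx]
    have := P11_G2 hβ0 hkβ (mem x hx).1.1 (mem x hx).1.2 le_rfl (mem x hx).2.1 (mem x hx).2.2
    simpa [F₂] using this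
  have b₁ : ∀ x ∈ Icc 0 ℓ, H₁ x ≤ k ^ 2 := fun x hx => by
    rw [e₁ x hx]
    have := P11_G1 hα0 hkα (mem x hx).1.1 (mem x hx).1.2 le_rfl (mem x hx).2.1 (mem x hx).2.2
    simp only [F₁] at this ⊢
    linarith
  have b₂ : ∀ x ∈ Icc 0 ℓ, H₂ x ≤ k ^ 2 := fun x hx => by
    rw [e₂ x hx]
    have := P11_G2 hβ0 hkβ (mem x hx).1.2 le_rfl (mem x hx).2.1 (mem x hx).2.2 le_rfl
    simp only [F₂] at this ⊢
    linarith
  have m₁ : MonotoneOn H₁ (Icc 0 ℓ) := fun x hx y hy hxy => by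
    rw [e₁ x hx, e₁ y hy]
    exact P11_G1 hα0 hkα (mem x hx).1.1 (mp hx hy hxy) (mem y hy).1.2 (mem x hx).2.1
      (mq hx hy hxy)
  have m₂ : MonotoneOn H₂ (Icc 0 ℓ) := fun x hx y hy hxy => by
    rw [e₂ x hx, e₂ y hy]
    exact P11_G2 hβ0 hkβ (mp hx hy hxy) (mem y hy).1.2 (mem x hx).2.1
      (mq hx hy hxy) (mem y hy).2.2
  obtain ⟨r₁, s₁⟩ := P11_comp hk hℓ c₁ a₁ b₁ m₁
  obtain ⟨r₂, s₂⟩ := P11_comp hk hℓ c₂ a₂ b₂ m₂
  obtain ⟨u', hu1, hu2⟩ := TK_deriv (A := 0) (B := 1) hk hℓ c₁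
  obtain ⟨hb0, hb1⟩ := TK_bdry (A := 0) (B := 1) hk hℓ H₁
  obtain ⟨v', hv1, hv2⟩ := TK_deriv (A := 0) (B := 1) hk hℓ c₂
  obtain ⟨hd0, hd1⟩ := TK_bdry (A := 0) (B := 1) hk hℓ H₂
  refine ⟨continuous_iff_continuousAt.2 fun x => (hu1 x).continuousAt,
    continuous_iff_continuousAt.2 fun x => (hv1 x).continuousAt,
    fun x hx => ⟨r₁ x hx, r₂ x hx⟩, s₁, s₂, ?_⟩
  obtain ⟨u, hu⟩ : ∃ u : ℝ → ℝ, u = TK k ℓ 0 1 H₁ := ⟨_, rfl⟩
  obtain ⟨v, hv⟩ : ∃ v : ℝ → ℝ, v = TK k ℓ 0 1 H₂ := ⟨_, rfl⟩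
  rw [← hu] at hu1 hu2 hb0 hb1 ⊢
  rw [← hv] at hv1 hv2 hd0 hd1 ⊢
  have hk2 : 0 < k ^ 2 := by positivity
  have hmain : ∀ x ∈ Icc 0 ℓ, 0 ≤ u x + v (ℓ - x) - 1 := by
    refine P11_mp (w := fun x => u x + v (ℓ - x) - 1) (w' := fun x => u' x + -v' (ℓ - x))
      (w'' := fun x => (k ^ 2 * u x - H₁ x) + (k ^ 2 * v (ℓ - x) - H₂ (ℓ - x))) hℓ.le
      (fun x _ => ((hu1 x).add ((hv1 (ℓ - x)).comp_const_sub ℓ x)).sub_const 1)
      (fun x _ => ?_) (fun x hx hneg => ?_) ?_ ?_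
    · exact ((hu2 x).add ((hv2 (ℓ - x)).comp_const_sub ℓ x).neg).congr_deriv (by ring)
    · have hx' : ℓ - x ∈ Icc 0 ℓ := ⟨by linarith [hx.2], by linarith [hx.1]⟩
      have t1 := swap x hx
      have t2 := swap (ℓ - x) hx'
      rw [sub_sub_cancel] at t2
      have t3 := mul_neg_of_pos_of_neg hk2 hneg
      rw [e₁ x hx, e₂ _ hx']
      have m1 := mem x hx
      have m2 := mem _ hx'
      have z1 : 0 ≤ (p x - (1 - q (ℓ - x))) *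
          (k ^ 2 + 1 - p x - (1 - q (ℓ - x)) - α * (1 - q x)) := by
        refine mul_nonneg (by linarith) ?_
        have := mul_nonneg hα0 m1.2.1
        linarith [m1.1.2, m2.2.1]
      have z2 : 0 ≤ (1 - q (ℓ - x)) * (β * p (ℓ - x) - α * (1 - q x)) := by
        refine mul_nonneg (by linarith [m2.2.2]) ?_
        have y1 := mul_le_mul_of_nonneg_left t2 hα0
        have y2 := mul_le_mul_of_nonneg_right hαβ.le m2.1.1
        linarith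
      simp only [F₁, F₂]
      linarith
    · simp only [sub_zero, hb0, hd1]; norm_num
    · simp only [sub_self, hb1, hd0]; norm_num
  intro x hx
  have := hmain x hx
  linarith

private theorem P11_inv {α β k ℓ : ℝ} (hα : 1 ≤ α) (hαβ : α < β) (hk : 0 < k)
    (hkβ : 1 + β ≤ k ^ 2) (hℓ : 0 < ℓ) (n : ℕ) :
    P11_Inv ℓ (iter α β k ℓ 0 1 0 1 n).1 (iter α β k ℓ 0 1 0 1 n).2 := by
  induction n with
  | zero =>
    refine ⟨continuous_const, continuous_const, fun x _ => ⟨⟨?_, ?_⟩, ⟨?_, ?_⟩⟩, ?_, ?_, ?_⟩ <;>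
      simp [iter, MonotoneOn]
  | succ n ih => exact P11_step hα hαβ hk hkβ hℓ ih

theorem exists_front {α β ℓ : ℝ} (hα : 1 ≤ α) (hαβ : α < β) (hℓ : 0 < ℓ) :
    ∃ p q : ℝ → ℝ, Stat α β ℓ p q ∧ p 0 = 0 ∧ q 0 = 0 ∧ p ℓ = 1 ∧ q ℓ = 1 ∧
      MonotoneOn p (Icc 0 ℓ) ∧ MonotoneOn q (Icc 0 ℓ) ∧
      (∀ x ∈ Icc 0 ℓ, 1 - q (ℓ - x) ≤ p x) ∧ (∀ x ∈ Icc 0 ℓ, p x ≤ q x) ∧
      ∀ x ∈ Ioc 0 ℓ, 0 < p x := by
  obtain ⟨k, hk⟩ : ∃ k : ℝ, k = 1 + β := ⟨_, rfl⟩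
  have hk0 : 0 < k := by rw [hk]; linarith
  have hkβ : 1 + β ≤ k ^ 2 := by rw [hk]; nlinarith
  have h01 : (0 : ℝ) ∈ Icc (0 : ℝ) 1 := by simp
  have h11 : (1 : ℝ) ∈ Icc (0 : ℝ) 1 := by simp
  obtain ⟨p, q, hS, hp0, hpℓ, hq0, hqℓ, hlim⟩ := iter_limit (a := α) (b := β) (by linarith)
    (by linarith) hk0 (by linarith) hkβ hℓ h01 h11 h01 h11
  have hinv := fun n => P11_inv hα hαβ hk0 hkβ hℓ n
  have hmp : MonotoneOn p (Icc 0 ℓ) := fun x hx y hy hxy =>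
    le_of_tendsto_of_tendsto' (hlim x hx).1 (hlim y hy).1 fun n => (hinv n).mp hx hy hxy
  have hmq : MonotoneOn q (Icc 0 ℓ) := fun x hx y hy hxy =>
    le_of_tendsto_of_tendsto' (hlim x hx).2 (hlim y hy).2 fun n => (hinv n).mq hx hy hxy
  have hswap : ∀ x ∈ Icc 0 ℓ, 1 - q (ℓ - x) ≤ p x := fun x hx =>
    le_of_tendsto_of_tendsto'
      ((hlim (ℓ - x) ⟨by linarith [hx.2], by linarith [hx.1]⟩).2.const_sub 1) (hlim x hx).1
      fun n => (hinv n).swap x hx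
  obtain ⟨hmem, p', q', hd⟩ := hS
  refine ⟨p, q, ⟨hmem, p', q', hd⟩, hp0, hq0, hpℓ, hqℓ, hmp, hmq, hswap, ?_, ?_⟩
  · -- `p ≤ q`
    have : ∀ x ∈ Icc 0 ℓ, 0 ≤ q x - p x := by
      refine P11_mp (w := fun x => q x - p x) hℓ.le (fun x hx => (hd x hx).2.1.sub (hd x hx).1)
        (fun x hx => (hd x hx).2.2.2.sub (hd x hx).2.2.1) (fun x hx hneg => ?_)
        (by simp only [hq0, hp0]; norm_num) (by simp only [hqℓ, hpℓ]; norm_num)
      have m := hmem x hx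
      have hlt : q x < p x := by linarith
      have h1 : 0 < p x * (p x - q x) := mul_pos (m.2.1.trans_lt hlt) (by linarith)
      have h2 : 0 ≤ (1 - q x) * (p x - q x) := mul_nonneg (by linarith [m.2.2]) (by linarith)
      have h3 : 0 ≤ (α - 1) * (p x * (1 - q x)) :=
        mul_nonneg (by linarith) (mul_nonneg m.1.1 (by linarith [m.2.2]))
      have h4 : 0 ≤ (β - 1) * (p x * (1 - q x)) :=
        mul_nonneg (by linarith) (mul_nonneg m.1.1 (by linarith [m.2.2]))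
      simp only [F₁, F₂]
      linarith
    intro x hx
    have := this x hx
    linarith
  · -- positivity
    intro x₀ hx₀
    have hx₀' : x₀ ∈ Icc 0 ℓ := ⟨hx₀.1.le, hx₀.2⟩
    by_contra hcon
    have hz : p x₀ = 0 := le_antisymm (not_lt.1 hcon) (hmem x₀ hx₀').1.1
    have hzero : ∀ x ∈ Icc 0 x₀, p x = 0 := fun x hx => by
      have hx' : x ∈ Icc 0 ℓ := ⟨hx.1, hx.2.trans hx₀.2⟩
      refine le_antisymm ?_ (hmem x hx').1.1
      rw [← hz]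
      exact hmp hx' hx₀' hx.2
    obtain ⟨x₁, hx₁⟩ : ∃ x₁ : ℝ, x₁ = x₀ / 2 := ⟨_, rfl⟩
    have hx₁0 : 0 < x₁ := by rw [hx₁]; linarith [hx₀.1]
    have hx₁0' : x₁ < x₀ := by rw [hx₁]; linarith [hx₀.1]
    have hx₁ℓ : x₁ < ℓ := hx₁0'.trans_le hx₀.2
    have hp'1 : p' x₁ = 0 := by
      have h1 := (hd x₁ ⟨hx₁0.le, hx₁ℓ.le⟩).1
      have h2 : p =ᶠ[𝓝 x₁] fun _ => 0 := by
        filter_upwards [Icc_mem_nhds hx₁0 hx₁0'] with x hx using hzero x hx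
      exact h1.unique ((hasDerivAt_const x₁ (0 : ℝ)).congr_of_eventuallyEq h2)
    have hp1 : p x₁ = 0 := hzero x₁ ⟨hx₁0.le, hx₁0'.le⟩
    obtain ⟨M, hM⟩ : ∃ M : ℝ, M = 3 + α := ⟨_, rfl⟩
    obtain ⟨c, hc, he⟩ := P11_mvt
      (f := fun x => (p x ^ 2 + p' x ^ 2) * Real.exp (-(M * x)))
      (f' := fun x => (2 * p x * p' x + 2 * p' x * -F₁ α (p x) (q x)) * Real.exp (-(M * x)) +
        (p x ^ 2 + p' x ^ 2) * (Real.exp (-(M * x)) * -M)) hx₁ℓ (fun x hx => by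
        have hx' : x ∈ Icc 0 ℓ := ⟨hx₁0.le.trans hx.1, hx.2⟩
        have h1 := (hd x hx').1.pow 2
        have h2 := (hd x hx').2.2.1.pow 2
        have h3 : HasDerivAt (fun x => Real.exp (-(M * x))) (Real.exp (-(M * x)) * -M) x := by
          have := ((hasDerivAt_id x).const_mul M).neg.exp
          simpa using this
        refine ((h1.add h2).mul h3).congr_deriv ?_
        simp only [Pi.add_apply, Pi.pow_apply]
        push_cast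
        ring)
    have hcI : c ∈ Icc 0 ℓ := ⟨hx₁0.le.trans hc.1.le, hc.2.le⟩
    have hexp := Real.exp_pos (-(M * c))
    have hneg : (2 * p c * p' c + 2 * p' c * -F₁ α (p c) (q c)) ≤ M * (p c ^ 2 + p' c ^ 2) := by
      have m := hmem c hcI
      obtain ⟨g, hg⟩ : ∃ g : ℝ, g = 1 - (1 - α - p c + α * q c) := ⟨_, rfl⟩
      have e : 2 * p c * p' c + 2 * p' c * -F₁ α (p c) (q c) = g * (2 * (p c * p' c)) := by
        rw [hg]; simp only [F₁]; ring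
      have b : |g| ≤ 3 + α := by
        have h1 := mul_nonneg (by linarith : 0 ≤ α) m.2.1
        have h2 := mul_nonneg (by linarith : 0 ≤ α) (sub_nonneg.2 m.2.2)
        rw [hg, abs_le]
        constructor <;> linarith [m.1.1, m.1.2]
      have b2 : |2 * (p c * p' c)| ≤ p c ^ 2 + p' c ^ 2 := by
        rw [abs_le]
        constructor <;> nlinarith [sq_nonneg (p c - p' c), sq_nonneg (p c + p' c)]
      rw [e, hM]
      calc g * (2 * (p c * p' c)) ≤ |g * (2 * (p c * p' c))| := le_abs_self _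
        _ = |g| * |2 * (p c * p' c)| := abs_mul _ _
        _ ≤ (3 + α) * (p c ^ 2 + p' c ^ 2) := by gcongr
    have hle : (p ℓ ^ 2 + p' ℓ ^ 2) * Real.exp (-(M * ℓ)) ≤ 0 := by
      have h1 : (2 * p c * p' c + 2 * p' c * -F₁ α (p c) (q c)) * Real.exp (-(M * c)) +
          (p c ^ 2 + p' c ^ 2) * (Real.exp (-(M * c)) * -M) ≤ 0 := by
        have := mul_le_mul_of_nonneg_right hneg hexp.le
        linarith
      have h2 := mul_nonpos_of_nonpos_of_nonneg h1 (sub_nonneg.2 hx₁ℓ.le)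
      simp only [hp1, hp'1] at he
      linarith
    rw [hpℓ] at hle
    have : 0 < (1 ^ 2 + p' ℓ ^ 2) * Real.exp (-(M * ℓ)) := by positivity
    linarith

end Pool.Agent.H62.LV
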