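import Pool.Agent.H62.LV.Base
import Pool.Agent.Helper85.LV.P11

/-!
# P12: a long front comes close to `(1, 1)` with small slopes
-/

namespace Pool.Agent.H62.LV

open MeasureTheory Set Filter Topology

private theorem P12_mvt {f f' : ℝ → ℝ} {a b : ℝ} (hab : a < b)
    (h : ∀ x ∈ Icc a b, HasDerivAt f (f' x) x) :
    ∃ c ∈ Ioo a b, f b - f a = f' c * (b - a) := by
  obtain ⟨c, hc, h2⟩ := exists_hasDerivAt_eq_slope f f' hab
    (fun x hx => (h x hx).continuousAt.continuousWithinAt)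
    (fun x hx => h x (Ioo_subset_Icc_self hx))
  refine ⟨c, hc, ?_⟩
  rw [h2]
  field_simp [(sub_pos.2 hab).ne']

/-- on a block of length `6` with small variation both derivatives are small somewhere -/
private theorem P12_block {u u' u'' : ℝ → ℝ} {s ν : ℝ}
    (h1 : ∀ x ∈ Icc s (s + 6), HasDerivAt u (u' x) x)
    (h2 : ∀ x ∈ Icc s (s + 6), HasDerivAt u' (u'' x) x)
    (hm : MonotoneOn u (Icc s (s + 6))) (hν : u (s + 6) - u s ≤ ν) :
    (∃ ξ ∈ Icc s (s + 6), |u'' ξ| ≤ ν) ∧ ∃ ξ ∈ Icc s (s + 1), u' ξ ≤ ν := by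
  have hmm : ∀ x y, s ≤ x → x ≤ y → y ≤ s + 6 → u y - u x ≤ ν ∧ 0 ≤ u y - u x := by
    intro x y hx hxy hy
    have a1 := hm (left_mem_Icc.2 (by linarith)) ⟨hx, hxy.trans hy⟩ hx
    have a2 := hm ⟨hx.trans hxy, hy⟩ (right_mem_Icc.2 (by linarith)) hy
    have a3 := hm ⟨hx, hxy.trans hy⟩ ⟨hx.trans hxy, hy⟩ hxy
    exact ⟨by linarith, by linarith⟩
  obtain ⟨c₁, hc₁, e₁⟩ := P12_mvt (f := u) (f' := u') (show s < s + 1 by linarith)
    (fun x hx => h1 x ⟨hx.1, by linarith [hx.2]⟩)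
  obtain ⟨c₂, hc₂, e₂⟩ := P12_mvt (f := u) (f' := u') (show s + 2 < s + 3 by linarith)
    (fun x hx => h1 x ⟨by linarith [hx.1], by linarith [hx.2]⟩)
  have b₁ := hmm s (s + 1) le_rfl (by linarith) (by linarith)
  have b₂ := hmm (s + 2) (s + 3) (by linarith) (by linarith) (by linarith)
  have hlt : c₁ < c₂ := by linarith [hc₁.2, hc₂.1]
  obtain ⟨c₃, hc₃, e₃⟩ := P12_mvt (f := u') (f' := u'') hlt
    (fun x hx => h2 x ⟨by linarith [hx.1, hc₁.1], by linarith [hx.2, hc₂.2]⟩)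
  have hge : 1 ≤ c₂ - c₁ := by linarith [hc₁.2, hc₂.1]
  have k₁ : u' c₁ = u (s + 1) - u s := by rw [e₁]; ring
  have k₂ : u' c₂ = u (s + 3) - u (s + 2) := by rw [e₂]; ring
  refine ⟨⟨c₃, ⟨by linarith [hc₃.1, hc₁.1], by linarith [hc₃.2, hc₂.2]⟩, ?_⟩,
    ⟨c₁, ⟨hc₁.1.le, hc₁.2.le⟩, by linarith [b₁.1]⟩⟩
  have habs : |u'' c₃ * (c₂ - c₁)| ≤ ν := by
    rw [← e₃, k₁, k₂, abs_le]
    constructor <;> linarith [b₁.1, b₁.2, b₂.1, b₂.2]
  rw [abs_mul, abs_of_pos (by linarith : (0 : ℝ) < c₂ - c₁)] at habs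
  nlinarith [abs_nonneg (u'' c₃)]

private theorem P12_F₁ {α p q p' q' ν : ℝ} (hα : 1 ≤ α) (hp : p ∈ Icc (0 : ℝ) 1)
    (hq : q ∈ Icc (0 : ℝ) 1) (hp' : p' ∈ Icc (0 : ℝ) 1)
    (h1 : |p - p'| ≤ ν) (h2 : |q - q'| ≤ ν) (h3 : |F₁ α p' q'| ≤ ν) :
    |F₁ α p q| ≤ (3 + 2 * α) * ν := by
  have e : F₁ α p q = (p - p') * (1 - α - p + α * q) +
      p' * (-(p - p') + α * (q - q')) + F₁ α p' q' := by
    simp only [F₁]; ring
  have hν : 0 ≤ ν := (abs_nonneg _).trans h1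
  have b1 : |1 - α - p + α * q| ≤ 1 + α := by
    rw [abs_le]
    constructor
    · nlinarith [hp.2, hq.1, mul_nonneg (by linarith : (0:ℝ) ≤ α) hq.1]
    · nlinarith [hp.1, hq.2, mul_nonneg (by linarith : (0:ℝ) ≤ α) (sub_nonneg.2 hq.2)]
  have b2 : |-(p - p') + α * (q - q')| ≤ (1 + α) * ν := by
    calc |-(p - p') + α * (q - q')| ≤ |-(p - p')| + |α * (q - q')| := abs_add_le _ _
      _ = |p - p'| + α * |q - q'| := by rw [abs_neg, abs_mul, abs_of_nonneg (by linarith : (0:ℝ) ≤ α)]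
      _ ≤ ν + α * ν := by gcongr
      _ = (1 + α) * ν := by ring
  have b3 : |p'| ≤ 1 := by rw [abs_of_nonneg hp'.1]; exact hp'.2
  rw [e]
  calc |(p - p') * (1 - α - p + α * q) + p' * (-(p - p') + α * (q - q')) + F₁ α p' q'|
      ≤ |(p - p') * (1 - α - p + α * q)| + |p' * (-(p - p') + α * (q - q'))| + |F₁ α p' q'| :=
        abs_add_three _ _ _
    _ = |p - p'| * |1 - α - p + α * q| + |p'| * |-(p - p') + α * (q - q')| + |F₁ α p' q'| := by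
        rw [abs_mul, abs_mul]
    _ ≤ ν * (1 + α) + 1 * ((1 + α) * ν) + ν := by gcongr
    _ = (3 + 2 * α) * ν := by ring

private theorem P12_F₂ {β p q p' q' ν : ℝ} (hβ : 1 ≤ β) (hp : p ∈ Icc (0 : ℝ) 1)
    (hq : q ∈ Icc (0 : ℝ) 1) (hq' : q' ∈ Icc (0 : ℝ) 1)
    (h1 : |p - p'| ≤ ν) (h2 : |q - q'| ≤ ν) (h3 : |F₂ β p' q'| ≤ ν) :
    |F₂ β p q| ≤ (3 + 2 * β) * ν := by
  have e : F₂ β p q = -(q - q') * (β * p - q) +
      (1 - q') * (-(q - q') + β * (p - p')) + F₂ β p' q' := by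
    simp only [F₂]; ring
  have hν : 0 ≤ ν := (abs_nonneg _).trans h1
  have b1 : |β * p - q| ≤ 1 + β := by
    rw [abs_le]
    constructor
    · nlinarith [hp.1, hq.2, mul_nonneg (by linarith : (0:ℝ) ≤ β) hp.1]
    · nlinarith [hp.2, hq.1, mul_nonneg (by linarith : (0:ℝ) ≤ β) (sub_nonneg.2 hp.2)]
  have b2 : |-(q - q') + β * (p - p')| ≤ (1 + β) * ν := by
    calc |-(q - q') + β * (p - p')| ≤ |-(q - q')| + |β * (p - p')| := abs_add_le _ _
      _ = |q - q'| + β * |p - p'| := by rw [abs_neg, abs_mul, abs_of_nonneg (by linarith : (0:ℝ) ≤ β)]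
      _ ≤ ν + β * ν := by gcongr
      _ = (1 + β) * ν := by ring
  have b3 : |1 - q'| ≤ 1 := by rw [abs_of_nonneg (by linarith [hq'.2])]; linarith [hq'.1]
  rw [e]
  calc |-(q - q') * (β * p - q) + (1 - q') * (-(q - q') + β * (p - p')) + F₂ β p' q'|
      ≤ |-(q - q') * (β * p - q)| + |(1 - q') * (-(q - q') + β * (p - p'))| + |F₂ β p' q'| :=
        abs_add_three _ _ _
    _ = |q - q'| * |β * p - q| + |1 - q'| * |-(q - q') + β * (p - p')| + |F₂ β p' q'| := by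
        rw [abs_mul, abs_mul, abs_neg]
    _ ≤ ν * (1 + β) + 1 * ((1 + β) * ν) + ν := by gcongr
    _ = (3 + 2 * β) * ν := by ring

/-- pigeonhole -/
private theorem P12_pigeon (V : ℕ → ℝ) {N : ℕ} (hN : 0 < N) (h : V N - V 0 ≤ 1) :
    ∃ i < N, V (i + 1) - V i ≤ 1 / N := by
  by_contra hcon
  push Not at hcon
  have h2 : ∑ i ∈ Finset.range N, (1 / N : ℝ) < ∑ i ∈ Finset.range N, (V (i + 1) - V i) :=
    Finset.sum_lt_sum_of_nonempty ⟨0, Finset.mem_range.2 hN⟩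
      (fun i hi => hcon i (Finset.mem_range.1 hi))
  rw [Finset.sum_range_sub, Finset.sum_const, Finset.card_range, nsmul_eq_mul] at h2
  have h3 : (N : ℝ) * (1 / N) = 1 := by
    have : (N : ℝ) ≠ 0 := by exact_mod_cast hN.ne'
    field_simp
  linarith

theorem front_block {α β : ℝ} (hα : 1 ≤ α) (hαβ : α < β) {ε : ℝ} (hε : 0 < ε) :
    ∃ x₂ : ℝ, 1 ≤ x₂ ∧ ∃ P R P' R' : ℝ → ℝ,
      (∀ x ∈ Icc 0 x₂, HasDerivAt P (P' x) x ∧ HasDerivAt R (R' x) x ∧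
        HasDerivAt P' (-(P x * (1 - P x - α * R x))) x ∧
        HasDerivAt R' (-(R x * (1 - β * P x - R x))) x) ∧
      P 0 = 0 ∧ R 0 = 1 ∧ (∀ x ∈ Icc 0 x₂, 0 ≤ P x ∧ 0 ≤ R x ∧ P x + R x ≤ 1) ∧
      0 ≤ P' x₂ ∧ P' x₂ ≤ ε ∧ -ε ≤ R' x₂ ∧ R' x₂ ≤ 0 ∧
      ∀ x ∈ Icc (x₂ - 1) x₂, 1 - ε ≤ P x := by
  have hβ : 1 ≤ β := hα.trans hαβ.le
  -- constants
  obtain ⟨C, hC⟩ : ∃ C : ℝ, C = 3 + 2 * β := ⟨_, rfl⟩
  obtain ⟨η, hη⟩ : ∃ η : ℝ, η = 1 / (4 * (1 + α)) := ⟨_, rfl⟩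
  obtain ⟨η', hη'⟩ : ∃ η' : ℝ, η' = ε / (2 * α) := ⟨_, rfl⟩
  have hC0 : 0 < C := by rw [hC]; linarith
  have hη0 : 0 < η := by rw [hη]; positivity
  have hη'0 : 0 < η' := by rw [hη']; positivity
  have hαη' : α * η' = ε / 2 := by rw [hη']; field_simp
  have hαη : (1 + α) * η = 1 / 4 := by rw [hη]; field_simp
  have hev : ∀ δ : ℝ, 0 < δ → ∀ᶠ N : ℕ in atTop, (1 / N : ℝ) < δ := fun δ hδ =>
    tendsto_one_div_atTop_nhds_zero_nat.eventually (gt_mem_nhds hδ)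
  obtain ⟨N, hN, n1, n2, n3, n4⟩ := ((eventually_gt_atTop 0).and
    ((hev η hη0).and ((hev (η * ε / (2 * C)) (by positivity)).and
      ((hev ((β - α) * η / (C * (1 / η + 1 / η'))) (by
        have := sub_pos.2 hαβ
        positivity)).and
        (hev (ε / (6 * C + 1)) (by positivity)))))).exists
  obtain ⟨ν, hν⟩ : ∃ ν : ℝ, ν = 1 / N := ⟨_, rfl⟩
  rw [← hν] at n1 n2 n3 n4
  have hν0 : 0 < ν := by
    rw [hν]
    have : (0 : ℝ) < N := by exact_mod_cast hN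
    positivity
  rw [lt_div_iff₀ (by positivity)] at n2 n3 n4
  have hNr : (1 : ℝ) ≤ N := by exact_mod_cast hN
  obtain ⟨ℓ, hℓ⟩ : ∃ ℓ : ℝ, ℓ = 12 * N := ⟨_, rfl⟩
  have hℓ0 : 0 < ℓ := by rw [hℓ]; linarith
  obtain ⟨p, q, ⟨hmem, p', q', hd⟩, hp0, hq0, hpℓ, hqℓ, hmp, hmq, hswap, hpq, hpos⟩ :=
    exists_front hα hαβ hℓ0
  -- derivatives are nonnegative
  have hp'0 : ∀ x ∈ Icc 0 ℓ, 0 ≤ p' x := fun x hx => by
    rw [← (hd x hx).1.hasDerivWithinAt.derivWithin (uniqueDiffOn_Icc hℓ0 x hx)]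
    exact hmp.derivWithin_nonneg
  have hq'0 : ∀ x ∈ Icc 0 ℓ, 0 ≤ q' x := fun x hx => by
    rw [← (hd x hx).2.1.hasDerivWithinAt.derivWithin (uniqueDiffOn_Icc hℓ0 x hx)]
    exact hmq.derivWithin_nonneg
  -- the block
  have hhalf : 6 * (N : ℝ) ∈ Icc 0 ℓ := ⟨by linarith, by rw [hℓ]; linarith⟩
  have hV : ∀ i : ℕ, i ≤ N → (6 * (N : ℝ) + 6 * i) ∈ Icc 0 ℓ := fun i hi => by
    have : (i : ℝ) ≤ N := by exact_mod_cast hi
    have h0 : (0 : ℝ) ≤ i := Nat.cast_nonneg i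
    exact ⟨by linarith, by rw [hℓ]; linarith⟩
  have hhalf2 : 1 - q (6 * N) ≤ p (6 * N) := by
    have := hswap (6 * N) hhalf
    rwa [show ℓ - 6 * N = 6 * N by rw [hℓ]; ring] at this
  obtain ⟨i, hi, hvi⟩ := P12_pigeon (fun i : ℕ => p (6 * N + 6 * i) + q (6 * N + 6 * i)) hN (by
    have h1 : p (6 * N + 6 * (N : ℝ)) ≤ 1 := (hmem _ (hV N le_rfl)).1.2
    have h2 : q (6 * N + 6 * (N : ℝ)) ≤ 1 := (hmem _ (hV N le_rfl)).2.2
    have h3 : 1 ≤ p (6 * (N : ℝ) + 6 * ((0 : ℕ) : ℝ)) + q (6 * (N : ℝ) + 6 * ((0 : ℕ) : ℝ)) := by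
      rw [Nat.cast_zero, mul_zero, add_zero]
      linarith
    linarith)
  obtain ⟨s, hs⟩ : ∃ s : ℝ, s = 6 * N + 6 * i := ⟨_, rfl⟩
  have hs6 : 6 * (N : ℝ) + 6 * ((i + 1 : ℕ) : ℝ) = s + 6 := by rw [hs]; push_cast; ring
  rw [hs6, ← hs, ← hν] at hvi
  have hsI : s ∈ Icc 0 ℓ := by rw [hs]; exact hV i hi.le
  have hs6I : s + 6 ∈ Icc 0 ℓ := by rw [← hs6]; exact hV (i + 1) hi
  have hshalf : 6 * (N : ℝ) ≤ s := by
    rw [hs]
    have h0 : (0 : ℝ) ≤ i := Nat.cast_nonneg i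
    linarith
  have hJ : ∀ x ∈ Icc s (s + 6), x ∈ Icc 0 ℓ := fun x hx =>
    ⟨hsI.1.trans hx.1, hx.2.trans hs6I.2⟩
  have hsJ : s ∈ Icc s (s + 6) := left_mem_Icc.2 (by linarith)
  have hs6J : s + 6 ∈ Icc s (s + 6) := right_mem_Icc.2 (by linarith)
  have hpm := hmp hsI hs6I (by linarith)
  have hqm := hmq hsI hs6I (by linarith)
  have hpν : p (s + 6) - p s ≤ ν := by linarith
  have hqν : q (s + 6) - q s ≤ ν := by linarith
  obtain ⟨⟨ξ, hξ, hξν⟩, ⟨a₁, ha₁, ha₁ν⟩⟩ := P12_block (u := p) (u' := p')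
    (u'' := fun x => -F₁ α (p x) (q x))
    (fun x hx => (hd x (hJ x hx)).1) (fun x hx => (hd x (hJ x hx)).2.2.1)
    (hmp.mono hJ) hpν
  obtain ⟨⟨ζ, hζ, hζν⟩, ⟨a₂, ha₂, ha₂ν⟩⟩ := P12_block (u := q) (u' := q')
    (u'' := fun x => -F₂ β (p x) (q x))
    (fun x hx => (hd x (hJ x hx)).2.1) (fun x hx => (hd x (hJ x hx)).2.2.2)
    (hmq.mono hJ) hqν
  have hvarp : ∀ x ∈ Icc s (s + 6), ∀ y ∈ Icc s (s + 6), |p x - p y| ≤ ν := fun x hx y hy => by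
    have e1 := hmp hsI (hJ x hx) hx.1
    have e2 := hmp (hJ x hx) hs6I hx.2
    have e3 := hmp hsI (hJ y hy) hy.1
    have e4 := hmp (hJ y hy) hs6I hy.2
    rw [abs_le]
    constructor <;> linarith
  have hvarq : ∀ x ∈ Icc s (s + 6), ∀ y ∈ Icc s (s + 6), |q x - q y| ≤ ν := fun x hx y hy => by
    have e1 := hmq hsI (hJ x hx) hx.1
    have e2 := hmq (hJ x hx) hs6I hx.2
    have e3 := hmq hsI (hJ y hy) hy.1
    have e4 := hmq (hJ y hy) hs6I hy.2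
    rw [abs_le]
    constructor <;> linarith
  have hF1 : ∀ x ∈ Icc s (s + 6), |F₁ α (p x) (q x)| ≤ C * ν := fun x hx => by
    have := P12_F₁ hα (hmem x (hJ x hx)).1 (hmem x (hJ x hx)).2 (hmem ξ (hJ ξ hξ)).1
      (hvarp x hx ξ hξ) (hvarq x hx ξ hξ) (by simpa using hξν)
    refine this.trans ?_
    rw [hC]
    gcongr
  have hF2 : ∀ x ∈ Icc s (s + 6), |F₂ β (p x) (q x)| ≤ C * ν := fun x hx => by
    have := P12_F₂ hβ (hmem x (hJ x hx)).1 (hmem x (hJ x hx)).2 (hmem ζ (hJ ζ hζ)).2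
      (hvarp x hx ζ hζ) (hvarq x hx ζ hζ) (by simpa using hζν)
    refine this.trans ?_
    rw [hC]
  -- `p` is not small on the block
  have hR : ∀ x ∈ Icc s (s + 6), 1 - q x ≤ p x := fun x hx => by
    have e1 := hmq hhalf (hJ x hx) (hshalf.trans hx.1)
    have e2 := hmp hhalf (hJ x hx) (hshalf.trans hx.1)
    linarith
  have hbig : ∃ x ∈ Icc s (s + 6), 1 / 2 < p x + α * (1 - q x) := by
    by_contra hcon
    push Not at hcon
    have hFn : ∀ x ∈ Icc s (s + 6), p x / 2 ≤ F₁ α (p x) (q x) := fun x hx => by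
      have h1 := hcon x hx
      have h2 := (hmem x (hJ x hx)).1.1
      have h3 := mul_nonneg h2 (sub_nonneg.2 h1)
      simp only [F₁]
      linarith
    have hs1 : s + 1 ∈ Icc s (s + 6) := ⟨by linarith, by linarith⟩
    have hc0 : 0 < p (s + 1) := hpos _ ⟨by linarith [hsI.1], (hJ _ hs1).2⟩
    obtain ⟨c₁, hc₁, e₁⟩ := P12_mvt (f := p') (f' := fun x => -F₁ α (p x) (q x))
      (show s + 1 < s + 6 by linarith)
      (fun x hx => (hd x (hJ x ⟨by linarith [hx.1], hx.2⟩)).2.2.1)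
    have hc₁J : c₁ ∈ Icc s (s + 6) := ⟨by linarith [hc₁.1], hc₁.2.le⟩
    have g1 := hFn c₁ hc₁J
    have g2 := hmp (hJ _ hs1) (hJ _ hc₁J) hc₁.1.le
    have g3 := hp'0 _ hs6I
    have g4 : 5 / 2 * p (s + 1) ≤ p' (s + 1) := by linarith
    obtain ⟨c₂, hc₂, e₂⟩ := P12_mvt (f := p) (f' := p') (show s < s + 1 by linarith)
      (fun x hx => (hd x (hJ x ⟨hx.1, by linarith [hx.2]⟩)).1)
    obtain ⟨c₃, hc₃, e₃⟩ := P12_mvt (f := p') (f' := fun x => -F₁ α (p x) (q x)) hc₂.2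
      (fun x hx => (hd x (hJ x ⟨by linarith [hx.1, hc₂.1], by linarith [hx.2]⟩)).2.2.1)
    have hc₃J : c₃ ∈ Icc s (s + 6) := ⟨by linarith [hc₃.1, hc₂.1], by linarith [hc₃.2]⟩
    have g5 := hFn c₃ hc₃J
    have g6 := (hmem _ (hJ _ hc₃J)).1.1
    have g7 : p' (s + 1) ≤ p' c₂ := by
      have h0 : 0 ≤ s + 1 - c₂ := by linarith [hc₂.2]
      have h1 : 0 ≤ F₁ α (p c₃) (q c₃) * (s + 1 - c₂) := mul_nonneg (by linarith) h0
      linarith
    have g8 := (hmem _ hsI).1.1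
    linarith
  obtain ⟨y, hy, hy2⟩ := hbig
  have hp0η : η ≤ p s := by
    have h1 := hR y hy
    have h2 : 1 / 2 < (1 + α) * p y := by
      have := mul_le_mul_of_nonneg_left h1 (by linarith : (0 : ℝ) ≤ α)
      linarith
    have h3 : 2 * η < p y := by
      refine lt_of_mul_lt_mul_left (a := 1 + α) ?_ (by linarith)
      linarith
    have h4 := (abs_le.1 (hvarp y hy s hsJ)).2
    linarith
  have hF1s := hF1 s hsJ
  have hF2s := hF2 s hsJ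
  have hps := (hmem s hsI).1
  have hqs := (hmem s hsI).2
  have hpqs := hpq s hsI
  have hRs := hR s hsJ
  -- `|1 - p - α r| ≤ C ν / η`
  have hk1 : |1 - p s - α * (1 - q s)| ≤ C * ν / η := by
    rw [le_div_iff₀ hη0]
    have : |F₁ α (p s) (q s)| = p s * |1 - p s - α * (1 - q s)| := by
      simp only [F₁]
      rw [abs_mul, abs_of_nonneg hps.1]
      congr 2
      ring
    rw [this] at hF1s
    have h2 := mul_le_mul_of_nonneg_left hp0η (abs_nonneg (1 - p s - α * (1 - q s)))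
    linarith
  have hr : 1 - q s < η' := by
    by_contra hcon
    push Not at hcon
    have hk2 : |1 - β * p s - (1 - q s)| ≤ C * ν / η' := by
      rw [le_div_iff₀ hη'0]
      have : |F₂ β (p s) (q s)| = (1 - q s) * |1 - β * p s - (1 - q s)| := by
        simp only [F₂]
        rw [abs_mul, abs_of_nonneg (by linarith [hqs.2] : (0:ℝ) ≤ 1 - q s), ← abs_neg (β * p s - q s)]
        congr 2
        ring
      rw [this] at hF2s
      have h2 := mul_le_mul_of_nonneg_left hcon (abs_nonneg (1 - β * p s - (1 - q s)))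
      linarith
    have e1 := (abs_le.1 hk1).2
    have e2 := (abs_le.1 hk2).1
    have e3 : (β - α) * η ≤ (β - α) * p s :=
      mul_le_mul_of_nonneg_left hp0η (sub_nonneg.2 hαβ.le)
    have e4 : (α - 1) * (1 - q s) ≤ (α - 1) * p s :=
      mul_le_mul_of_nonneg_left hRs (by linarith)
    have e5 : ν * (C * (1 / η + 1 / η')) = C * ν / η + C * ν / η' := by ring
    rw [e5] at n3
    linarith
  have hps1 : 1 - ε ≤ p s := by
    have e1 := (abs_le.1 hk1).2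
    have e2 : C * ν / η ≤ ε / 2 := by
      rw [div_le_iff₀ hη0]
      linarith
    have e3 : α * (1 - q s) ≤ α * η' := mul_le_mul_of_nonneg_left hr.le (by linarith)
    linarith
  -- the slopes
  have hs1J : s + 1 ∈ Icc s (s + 6) := ⟨by linarith, by linarith⟩
  have hslope : ∀ u' u'' : ℝ → ℝ, (∀ x ∈ Icc s (s + 6), HasDerivAt u' (u'' x) x) →
      (∀ x ∈ Icc s (s + 6), |u'' x| ≤ C * ν) → ∀ a ∈ Icc s (s + 1), u' a ≤ ν →
      u' (s + 1) ≤ ε := by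
    intro u' u'' h1 h2 a ha h3
    have hCν := mul_pos hC0 hν0
    rcases eq_or_lt_of_le ha.2 with h | h
    · rw [← h]
      refine h3.trans ?_
      linarith
    · obtain ⟨c, hc, e⟩ := P12_mvt (f := u') (f' := u'') h
        (fun x hx => h1 x ⟨by linarith [hx.1, ha.1], by linarith [hx.2]⟩)
      have h4 := h2 c ⟨by linarith [hc.1, ha.1], by linarith [hc.2]⟩
      have h5 : u'' c * (s + 1 - a) ≤ C * ν * 6 := by
        calc u'' c * (s + 1 - a) ≤ C * ν * (s + 1 - a) :=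
              mul_le_mul_of_nonneg_right ((le_abs_self _).trans h4) (by linarith)
          _ ≤ C * ν * 6 := mul_le_mul_of_nonneg_left (by linarith [ha.1]) (by positivity)
      linarith
  refine ⟨s + 1, by linarith [hsI.1], p, fun x => 1 - q x, p', fun x => -q' x, ?_, hp0, by simp [hq0],
    ?_, ?_, ?_, ?_, ?_, ?_⟩
  · intro x hx
    have hx' : x ∈ Icc 0 ℓ := ⟨hx.1, hx.2.trans (hJ _ hs1J).2⟩
    obtain ⟨d1, d2, d3, d4⟩ := hd x hx'
    refine ⟨d1, ?_, ?_, ?_⟩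
    · simpa using d2.const_sub 1
    · exact d3.congr_deriv (by simp only [F₁]; ring)
    · exact d4.neg.congr_deriv (by simp only [F₂]; ring)
  · intro x hx
    have hx' : x ∈ Icc 0 ℓ := ⟨hx.1, hx.2.trans (hJ _ hs1J).2⟩
    have h1 := hmem x hx'
    have h2 := hpq x hx'
    exact ⟨h1.1.1, by linarith [h1.2.2], by linarith⟩
  · exact hp'0 _ (hJ _ hs1J)
  · exact hslope p' (fun x => -F₁ α (p x) (q x)) (fun x hx => (hd x (hJ x hx)).2.2.1)
      (fun x hx => by rw [abs_neg]; exact hF1 x hx) a₁ ha₁ ha₁ν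
  · have := hslope q' (fun x => -F₂ β (p x) (q x)) (fun x hx => (hd x (hJ x hx)).2.2.2)
      (fun x hx => by rw [abs_neg]; exact hF2 x hx) a₂ ha₂ ha₂ν
    linarith
  · have := hq'0 _ (hJ _ hs1J)
    linarith
  · intro x hx
    have hx' : x ∈ Icc s (s + 6) := ⟨by linarith [hx.1], by linarith [hx.2]⟩
    have := hmp hsI (hJ x hx') hx'.1
    linarith

end Pool.Agent.H62.LV
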